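import Pool.Agent.H.MP_766cb7_co.Main

set_option autoImplicit false

namespace Pool.Agent.Results.MP_766cb7_co.NotB

theorem result :
    ∃ (α : Type) (f : Set α → Set α),
      (∀ A, A ⊆ f A) ∧
      (∀ A B, A ⊆ B → f A ⊆ f B) ∧
      (∀ A, f (f A) = f A) ∧
      (∀ A B q, q ∈ f B → q ∉ f (B \ A) → ∃ a ∈ A, a ∈ f (insert q (B \ {a}))) ∧
      (∀ B q, q ∈ f B → ∃ U : Set α,
          Minimal (fun W : Set α => W ⊆ B ∧ q ∈ f W) U ∧ ∀ a ∈ U, a ∉ f (U \ {a})) ∧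
      (∀ B q, q ∉ f B → ∃ V : Set α,
          Maximal (fun W : Set α => B ⊆ W ∧ q ∉ f W) V ∧ f (insert q V) = Set.univ) ∧
      ¬ ∃ M : Matroid α, M.E = Set.univ ∧ ∀ X, M.closure X = f X := by
  obtain ⟨F, hF, h0, hc, hno⟩ := Pool.Agent.H.MP_766cb7_co.main
  exact ⟨_, Pool.Agent.H.MP_766cb7_co.cl F, Pool.Agent.H.MP_766cb7_co.cl_ext F,
    fun _ _ h => Pool.Agent.H.MP_766cb7_co.cl_mono F h, Pool.Agent.H.MP_766cb7_co.cl_idem F,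
    Pool.Agent.H.MP_766cb7_co.cl_exch' hF, Pool.Agent.H.MP_766cb7_co.cl_C hF h0,
    Pool.Agent.H.MP_766cb7_co.cl_H hF hc, hno⟩

end Pool.Agent.Results.MP_766cb7_co.NotB
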